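import Pool.Agent.Lib.MP_efc1da_coD.It

/-!
# Many deleted vertices: the lower bound
-/

set_option autoImplicit false

namespace Pool.Agent.EfcE

open Pool.Agent.Efc

/-- The step from `K` to `K + 1`. -/
private theorem step {α : Type} [Fintype α] [DecidableEq α] (K : ℕ) (F : Finset (Finset α))
    (hU : Unif K F) (hI : Efc.Inter F) (hC : Cov K F) :
    ∃ (β : Type) (_ : Fintype β) (_ : DecidableEq β) (G : Finset (Finset β)),
      Unif (K + 1) G ∧ Efc.Inter G ∧ Cov (K + 1) G ∧
      ∀ B : Finset β, ∃ (B0 : Finset α) (c : ℕ), B0.card + c = B.card ∧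
        (K + 1 - c) * (F.filter fun A => Disjoint A B0).card ≤
          (G.filter fun A => Disjoint A B).card ∧
        (c = 0 → 1 ≤ (G.filter fun A => Disjoint A B).card) := by
  classical
  have hdisj : ∀ (A A' : Finset α) (Y Y' : Finset (Fin (K + 1))),
      Disjoint (A.disjSum Y) (A'.disjSum Y') ↔ Disjoint A A' ∧ Disjoint Y Y' := by
    intro A A' Y Y'
    simp only [Finset.disjoint_left, Finset.inl_mem_disjSum, Finset.inr_mem_disjSum, Sum.forall]
  let G : Finset (Finset (α ⊕ Fin (K + 1))) :=
    insert ((∅ : Finset α).disjSum Finset.univ)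
      ((F ×ˢ Finset.univ).image fun p => p.1.disjSum {p.2})
  have hG : ∀ B, B ∈ G ↔ B = (∅ : Finset α).disjSum Finset.univ ∨
      ∃ A ∈ F, ∃ y : Fin (K + 1), B = A.disjSum {y} := by
    intro B
    simp only [G, Finset.mem_insert, Finset.mem_image, Finset.mem_product, Finset.mem_univ,
      and_true]
    constructor
    · rintro (h | ⟨p, hp, rfl⟩)
      · exact Or.inl h
      · exact Or.inr ⟨p.1, hp, p.2, rfl⟩
    · rintro (h | ⟨A, hA, y, rfl⟩)
      · exact Or.inl h
      · exact Or.inr ⟨(A, y), hA, rfl⟩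
  refine ⟨α ⊕ Fin (K + 1), inferInstance, inferInstance, G, ?_, ?_, ?_, ?_⟩
  · intro B hB
    rcases (hG B).1 hB with rfl | ⟨A, hA, y, rfl⟩
    · rw [Finset.card_disjSum, Finset.card_empty, Finset.card_univ, Fintype.card_fin, zero_add]
    · rw [Finset.card_disjSum, hU A hA, Finset.card_singleton]
  · intro B hB B' hB' hd
    rcases (hG B).1 hB with rfl | ⟨A, hA, y, rfl⟩ <;>
    rcases (hG B').1 hB' with rfl | ⟨A', hA', y', rfl⟩ <;> rw [hdisj] at hd
    · exact Finset.disjoint_left.1 hd.2 (Finset.mem_univ 0) (Finset.mem_univ 0)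
    · exact Finset.disjoint_left.1 hd.2 (Finset.mem_univ y') (Finset.mem_singleton_self y')
    · exact Finset.disjoint_left.1 hd.2 (Finset.mem_singleton_self y) (Finset.mem_univ y)
    · exact hI A hA A' hA' hd.1
  · intro T hT
    obtain ⟨T0, TY, rfl⟩ : ∃ (T0 : Finset α) (TY : Finset (Fin (K + 1))), T = T0.disjSum TY :=
      ⟨_, _, T.toLeft_disjSum_toRight.symm⟩
    rw [Finset.card_disjSum] at hT
    rcases TY.eq_empty_or_nonempty with h0 | h0
    · refine ⟨_, (hG _).2 (Or.inl rfl), ?_⟩
      rw [hdisj, h0]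
      exact ⟨Finset.disjoint_empty_left _, Finset.disjoint_empty_right _⟩
    · have h1 := Finset.card_pos.2 h0
      obtain ⟨A, hA, hd⟩ := hC T0 (by omega)
      obtain ⟨y, hy⟩ : ∃ y, y ∉ TY := by
        by_contra hcon
        push Not at hcon
        rw [Finset.eq_univ_iff_forall.2 hcon, Finset.card_univ, Fintype.card_fin] at hT
        omega
      refine ⟨_, (hG _).2 (Or.inr ⟨A, hA, y, rfl⟩), ?_⟩
      rw [hdisj]
      exact ⟨hd, Finset.disjoint_singleton_left.2 hy⟩
  · intro B
    obtain ⟨B0, BY, rfl⟩ : ∃ (B0 : Finset α) (BY : Finset (Fin (K + 1))), B = B0.disjSum BY :=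
      ⟨_, _, B.toLeft_disjSum_toRight.symm⟩
    refine ⟨B0, BY.card, by rw [Finset.card_disjSum], ?_, ?_⟩
    · have h1 : K + 1 - BY.card = (BYᶜ).card := by
        rw [Finset.card_compl, Fintype.card_fin]
      calc (K + 1 - BY.card) * (F.filter fun A => Disjoint A B0).card =
            ((F.filter fun A => Disjoint A B0) ×ˢ BYᶜ).card := by
            rw [Finset.card_product, mul_comm, h1]
        _ ≤ (G.filter fun A => Disjoint A (B0.disjSum BY)).card := by
            refine Finset.card_le_card_of_injOn (fun p => p.1.disjSum {p.2}) ?_ ?_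
            · intro p hp
              rw [Finset.mem_coe, Finset.mem_product, Finset.mem_filter, Finset.mem_compl] at hp
              rw [Finset.mem_coe, Finset.mem_filter]
              refine ⟨(hG _).2 (Or.inr ⟨p.1, hp.1.1, p.2, rfl⟩), ?_⟩
              rw [hdisj]
              exact ⟨hp.1.2, Finset.disjoint_singleton_left.2 hp.2⟩
            · intro p _ p' _ h
              have h2 := Finset.disjSum_inj.1 h
              exact Prod.ext h2.1 (Finset.singleton_injective h2.2)
    · intro hc
      refine Finset.card_pos.2 ⟨(∅ : Finset α).disjSum Finset.univ, ?_⟩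
      rw [Finset.mem_filter, hdisj, Finset.card_eq_zero.1 hc]
      exact ⟨(hG _).2 (Or.inl rfl), Finset.disjoint_empty_left _, Finset.disjoint_empty_right _⟩

private theorem arith {K b0 c v w : ℕ} (hb : b0 + c < K + 1) (h : b0 < K)
    (hv : K.factorial ≤ (b0 + 1).factorial * v) (hw : (K + 1 - c) * v ≤ w) :
    (K + 1).factorial ≤ (b0 + c + 1).factorial * w := by
  have h1 : (K + 1) * (b0 + 1).factorial ≤ (b0 + c + 1).factorial * (K + 1 - c) := by
    rcases Nat.eq_zero_or_pos c with rfl | hc
    · rw [Nat.add_zero, Nat.sub_zero, mul_comm]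
    · have h2 : (b0 + 1).factorial ≤ (b0 + c).factorial := Nat.factorial_le (by omega)
      have h3 : K + 1 ≤ (b0 + c + 1) * (K + 1 - c) := by
        obtain ⟨d, hd⟩ : ∃ d, K = c + d := ⟨K - c, by omega⟩
        subst hd
        rw [show c + d + 1 - c = d + 1 by omega]
        nlinarith [Nat.zero_le (c * d), Nat.zero_le (b0 * d)]
      rw [Nat.factorial_succ (b0 + c)]
      calc (K + 1) * (b0 + 1).factorial ≤ (b0 + c + 1) * (K + 1 - c) * (b0 + c).factorial :=
            Nat.mul_le_mul h3 h2
        _ = (b0 + c + 1) * (b0 + c).factorial * (K + 1 - c) := by ring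
  calc (K + 1).factorial = (K + 1) * K.factorial := Nat.factorial_succ K
    _ ≤ (K + 1) * ((b0 + 1).factorial * v) := Nat.mul_le_mul_left _ hv
    _ = ((K + 1) * (b0 + 1).factorial) * v := by ring
    _ ≤ ((b0 + c + 1).factorial * (K + 1 - c)) * v := Nat.mul_le_mul_right _ h1
    _ = (b0 + c + 1).factorial * ((K + 1 - c) * v) := by ring
    _ ≤ (b0 + c + 1).factorial * w := Nat.mul_le_mul_left _ hw

/-- A family which resists the deletion of any set of fewer than `k` points. -/
theorem low : ∀ k : ℕ, 1 ≤ k → ∃ (β : Type) (_ : Fintype β) (_ : DecidableEq β)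
    (F : Finset (Finset β)), Unif k F ∧ Efc.Inter F ∧ Cov k F ∧
      ∀ B : Finset β, B.card < k →
        k.factorial ≤ (B.card + 1).factorial * (F.filter fun A => Disjoint A B).card := by
  intro k hk
  induction k, hk using Nat.le_induction with
  | base =>
    refine ⟨Fin 1, inferInstance, inferInstance, {{0}}, ?_, ?_, ?_, ?_⟩
    · intro A hA
      rw [Finset.mem_singleton.1 hA, Finset.card_singleton]
    · intro A hA B hB
      rw [Finset.mem_singleton.1 hA, Finset.mem_singleton.1 hB]
      exact Finset.not_disjoint_iff.2 ⟨0, Finset.mem_singleton_self 0, Finset.mem_singleton_self 0⟩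
    · intro T hT
      refine ⟨{0}, Finset.mem_singleton_self _, ?_⟩
      rw [Finset.card_eq_zero.1 (show T.card = 0 by omega)]
      exact Finset.disjoint_empty_right _
    · intro B hB
      have h0 : B = ∅ := Finset.card_eq_zero.1 (by omega)
      subst h0
      rw [Finset.filter_true_of_mem fun A _ => Finset.disjoint_empty_right A]
      simp
  | succ K hK ih =>
    obtain ⟨α, i1, i2, F, hU, hI, hC, hB⟩ := ih
    obtain ⟨β, j1, j2, G, gU, gI, gC, gB⟩ := step K F hU hI hC
    refine ⟨β, j1, j2, G, gU, gI, gC, fun B hBc => ?_⟩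
    obtain ⟨B0, c, hc, h1, h2⟩ := gB B
    rw [← hc] at hBc ⊢
    rcases Nat.lt_or_ge B0.card K with h | h
    · exact arith hBc h (hB B0 h) h1
    · have hc0 : c = 0 := by omega
      have h3 : B0.card = K := by omega
      rw [hc0, h3, Nat.add_zero]
      exact Nat.le_mul_of_pos_right _ (h2 hc0)

end Pool.Agent.EfcE
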