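import Pool.Agent.Lib.MP_efc1da_coE.Mn
import Pool.Agent.Lib.MP_efc1da_coE.Lb

/-!
# Many deleted vertices: the final statement
-/

set_option autoImplicit false

namespace Pool.Agent.EfcE.FeM

open Pool.Agent.Efc Pool.Agent.EfcA

/-- The set whose supremum is taken. -/
private def V (k a : ℕ) : Set ℕ :=
  {v : ℕ | ∃ n : ℕ, ∃ F : Finset (Finset (Fin n)),
      (∀ A ∈ F, A.card = k) ∧
      (∀ A ∈ F, ∀ A' ∈ F, ¬ Disjoint A A') ∧
      (∀ T : Finset (Fin n), T.card < k → ∃ A ∈ F, Disjoint A T) ∧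
      (∃ B : Finset (Fin n), B.card = a ∧ (F.filter (fun A => Disjoint A B)).card = v) ∧
      (∀ B : Finset (Fin n), B.card = a → v ≤ (F.filter (fun A => Disjoint A B)).card)}

private theorem card_le (hEL : ELStmt) {k n : ℕ} {F : Finset (Finset (Fin n))}
    (h1 : ∀ A ∈ F, A.card = k) (h2 : ∀ A ∈ F, ∀ A' ∈ F, ¬ Disjoint A A')
    (h3 : ∀ T : Finset (Fin n), T.card < k → ∃ A ∈ F, Disjoint A T) : F.card ≤ k ^ k := by
  have h := hEL (Fin n) k F h1 h2 h3 ∅
  rw [Finset.filter_true_of_mem fun A _ => Finset.empty_subset A, Finset.card_empty,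
    Nat.sub_zero] at h
  exact h

private theorem bdd (hEL : ELStmt) (k a : ℕ) : BddAbove (V k a) := by
  refine ⟨k ^ k, ?_⟩
  rintro v ⟨n, F, h1, h2, h3, ⟨B, -, hB⟩, -⟩
  rw [← hB]
  exact (Finset.card_le_card (Finset.filter_subset _ _)).trans (card_le hEL h1 h2 h3)

private theorem mem_zero {k n : ℕ} {F : Finset (Finset (Fin n))}
    (h1 : ∀ A ∈ F, A.card = k) (h2 : ∀ A ∈ F, ∀ A' ∈ F, ¬ Disjoint A A')
    (h3 : ∀ T : Finset (Fin n), T.card < k → ∃ A ∈ F, Disjoint A T) :
    F.card ∈ V k 0 := by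
  have h4 : F.filter (fun A => Disjoint A (∅ : Finset (Fin n))) = F :=
    Finset.filter_true_of_mem fun A _ => Finset.disjoint_empty_right A
  refine ⟨n, F, h1, h2, h3, ⟨∅, rfl, by rw [h4]⟩, fun B hB => ?_⟩
  rw [Finset.card_eq_zero.1 hB, h4]

/-- A lower bound for `m K a` from one family. -/
private theorem lower (hEL : ELStmt) (m : ℕ → ℕ → ℕ) (hm : ∀ k a, m k a = sSup (V k a))
    {K a n t c : ℕ} {F : Finset (Finset (Fin n))} (hU : Unif K F) (hI : Efc.Inter F) (hC : Cov K F)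
    (haK : a < K)
    (h : ∀ B : Finset (Fin n), B.card = a → t ≤ c * (F.filter fun A => Disjoint A B).card) :
    t ≤ c * m K a := by
  obtain ⟨A0, hA0, -⟩ := hC ∅ (by rw [Finset.card_empty]; omega)
  have hKn : K ≤ n := by
    rw [← hU A0 hA0]
    have := Finset.card_le_univ A0
    rwa [Fintype.card_fin] at this
  have hne : (Finset.powersetCard a (Finset.univ : Finset (Fin n))).Nonempty := by
    rw [Finset.powersetCard_nonempty, Finset.card_univ, Fintype.card_fin]
    omega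
  obtain ⟨B, hB, hmin⟩ := Finset.exists_min_image _
    (fun B : Finset (Fin n) => (F.filter fun A => Disjoint A B).card) hne
  rw [Finset.mem_powersetCard] at hB
  have hv : (F.filter fun A => Disjoint A B).card ∈ V K a :=
    ⟨n, F, hU, hI, hC, ⟨B, hB.2, rfl⟩, fun B' hB' =>
      hmin B' (Finset.mem_powersetCard.2 ⟨Finset.subset_univ B', hB'⟩)⟩
  have h1 : (F.filter fun A => Disjoint A B).card ≤ m K a := by
    rw [hm K a]
    exact le_csSup (bdd hEL K a) hv
  exact (h B hB.2).trans (Nat.mul_le_mul_left c h1)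

/-- An upper bound for `m k a`. -/
private theorem upper (hEL : ELStmt) (m : ℕ → ℕ → ℕ) (hm : ∀ k a, m k a = sSup (V k a))
    {k a : ℕ} (x : ℝ) (hx : 0 ≤ x)
    (h : ∀ (n : ℕ) (F : Finset (Finset (Fin n))), Unif k F → Efc.Inter F → Cov k F →
      (F.card : ℝ) ≤ m k 0 →
      ∃ B : Finset (Fin n), B.card ≤ a ∧ ((F.filter fun A => Disjoint A B).card : ℝ) ≤ x) :
    (m k a : ℝ) ≤ x := by
  rcases (V k a).eq_empty_or_nonempty with hV | hV
  · rw [hm k a, hV, csSup_empty]
    simpa using hx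
  · have hmem := Nat.sSup_mem hV (bdd hEL k a)
    rw [← hm k a] at hmem
    obtain ⟨n, F, h1, h2, h3, ⟨B0, hB0, -⟩, hmin⟩ := hmem
    have han : a ≤ n := by
      rw [← hB0]
      simpa using Finset.card_le_univ B0
    have h0 : F.card ≤ m k 0 := by
      rw [hm k 0]
      exact le_csSup (bdd hEL k 0) (mem_zero h1 h2 h3)
    obtain ⟨B, hB, hBx⟩ := h n F h1 h2 h3 (by exact_mod_cast h0)
    obtain ⟨B', hBB', hB'⟩ := Finset.exists_superset_card_eq hB (by rw [Fintype.card_fin]; exact han)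
    refine le_trans ?_ hBx
    have h4 : m k a ≤ (F.filter fun A => Disjoint A B).card := by
      refine (hmin B' hB').trans (Finset.card_le_card ?_)
      intro A hA
      rw [Finset.mem_filter] at hA ⊢
      exact ⟨hA.1, Finset.disjoint_of_subset_right hBB' hA.2⟩
    exact_mod_cast h4

end Pool.Agent.EfcE.FeM

namespace Pool.Agent.EfcE

open Pool.Agent.Efc Pool.Agent.EfcA

/-- The final statement. -/
def StmtFe : Prop :=
  ∀ m : ℕ → ℕ → ℕ,
    (∀ k a : ℕ, m k a = sSup {v : ℕ | ∃ n : ℕ, ∃ F : Finset (Finset (Fin n)),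
      (∀ A ∈ F, A.card = k) ∧
      (∀ A ∈ F, ∀ A' ∈ F, ¬ Disjoint A A') ∧
      (∀ T : Finset (Fin n), T.card < k → ∃ A ∈ F, Disjoint A T) ∧
      (∃ B : Finset (Fin n), B.card = a ∧ (F.filter (fun A => Disjoint A B)).card = v) ∧
      (∀ B : Finset (Fin n), B.card = a → v ≤ (F.filter (fun A => Disjoint A B)).card)}) →
    (∀ β C : ℝ, 0 < β → 0 < C → β + 1 / C < 1 → ∃ k₀ : ℕ, ∀ k : ℕ, k₀ ≤ k → ∀ a : ℕ,
      C * k ≤ a * Real.log (Real.log k) →
        (m k a : ℝ) ≤ (Real.log k) ^ (-(β * a)) * (m k 0 : ℝ)) ∧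
    ∀ k a : ℕ, a < k → k.factorial ≤ (a + 1).factorial * m k a

theorem stmtFe : CrossStmt → ELStmt → LowStmt → StmtFe := by
  intro hCr hEL hLow m hm
  have hm' : ∀ k a, m k a = sSup (FeM.V k a) := hm
  refine ⟨fun β C hβ hC hβC => ?_, fun k a hak => ?_⟩
  · have hC' : 0 < 1 / C := by positivity
    obtain ⟨k₀, hk₀⟩ := num (β + 1 / C) (by linarith) hβC
    refine ⟨k₀, fun k hk a ha => ?_⟩
    obtain ⟨hk1, hℓ, hρ, hnum⟩ := hk₀ k hk
    have hlog0 : 0 ≤ Real.log k := Real.log_nonneg (by exact_mod_cast hk1)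
    have hlog1 : 1 < Real.log k := (Real.log_pos_iff hlog0).1 hℓ
    have hpow : (Real.log k) ^ (-(β * a)) =
        Real.exp (-(β * a * Real.log (Real.log k))) := by
      rw [Real.rpow_def_of_pos (by linarith)]
      ring_nf
    rw [hpow]
    have hfac : (k.factorial : ℝ) ≤ m k 0 := by
      obtain ⟨n, F, g1, g2, g3, g4⟩ := hLow k hk1
      have h5 : F.card ≤ m k 0 := by
        rw [hm' k 0]
        exact le_csSup (FeM.bdd hEL k 0) (FeM.mem_zero g1 g2 g3)
      exact_mod_cast g4.trans h5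
    refine FeM.upper hEL m hm' _ (by positivity) fun n F g1 g2 g3 g4 => ?_
    rcases Nat.lt_or_ge a k with hak | hak
    · have ha' : (k : ℝ) ≤ (β + 1 / C - β) * a * Real.log (Real.log k) := by
        have h5 : (β + 1 / C - β) * a * Real.log (Real.log k) =
            (a * Real.log (Real.log k)) / C := by
          field_simp
          ring
        rw [h5, le_div_iff₀ hC]
        linarith
      exact one hCr hEL k a F β (β + 1 / C) (Real.log (Real.log k)) (m k 0) hk1
        hβ.le (by linarith) (by linarith) hℓ hak.le (by linarith)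
        ha' hρ hnum hfac g4 g1 g2 g3
    · obtain ⟨A0, hA0, -⟩ := g3 ∅ (by rw [Finset.card_empty]; omega)
      refine ⟨A0, by rw [g1 A0 hA0]; exact hak, ?_⟩
      have h5 : F.filter (fun A => Disjoint A A0) = ∅ := by
        rw [Finset.filter_eq_empty_iff]
        exact fun A hA => g2 A hA A0 hA0
      rw [h5, Finset.card_empty, Nat.cast_zero]
      positivity
  · obtain ⟨β, i1, i2, F, hU, hI, hC, hB⟩ := low k (by omega)
    obtain ⟨n, F', f1, f2, f3, f4⟩ := EfcD.trans k F hU hI hC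
    refine FeM.lower hEL m hm' f1 f2 f3 hak fun B' hB' => ?_
    obtain ⟨B, hBc, hle⟩ := f4 B'
    have h1 := hB B (by omega)
    rw [hBc, hB'] at h1
    exact h1.trans (Nat.mul_le_mul_left _ hle)

end Pool.Agent.EfcE
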