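import Pool.Agent.Lib.MP_efc1da_coA.Defs

/-!
# Many deleted vertices: the kernel lemma

If the members of `F` containing `A` form an `R`-spread family and the members of `F` disjoint from
`A` and containing `B` form a `ρ`-spread family, then `B` has more than `R - ρ` points.
-/

set_option autoImplicit false

namespace Pool.Agent.EfcE

open Pool.Agent.Efc Pool.Agent.EfcA

/-- Few members of a spread family meet a set. -/
private theorem meet {α : Type} [DecidableEq α] (P : Finset (Finset α)) (A B : Finset α) (R : ℝ)
    (hR : 0 < R) (hsp : SprOver R P A) (hBA : Disjoint B A) :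
    (P.card : ℝ) * (R - B.card) ≤ R * (P.filter fun i => Disjoint i B).card := by
  have h1 : P.card ≤ (P.filter fun i => Disjoint i B).card + ∑ x ∈ B, (up P {x}).card := by
    rw [← Finset.card_filter_add_card_filter_not (s := P) (fun i => Disjoint i B)]
    refine Nat.add_le_add_left ?_ _
    calc (P.filter fun i => ¬ Disjoint i B).card ≤ (B.biUnion fun x => up P {x}).card := by
          refine Finset.card_le_card fun i hi => ?_
          rw [Finset.mem_filter] at hi
          obtain ⟨x, hx1, hx2⟩ := Finset.not_disjoint_iff.1 hi.2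
          rw [Finset.mem_biUnion]
          refine ⟨x, hx2, ?_⟩
          unfold up
          rw [Finset.mem_filter]
          exact ⟨hi.1, Finset.singleton_subset_iff.2 hx1⟩
      _ ≤ ∑ x ∈ B, (up P {x}).card := Finset.card_biUnion_le
  have h2 : ∀ x ∈ B, ((up P {x}).card : ℝ) * R ≤ P.card := by
    intro x hx
    have h3 := hsp {x} (Finset.disjoint_singleton_left.2 (Finset.disjoint_left.1 hBA hx))
    rwa [Finset.card_singleton, pow_one] at h3
  have h3 : (∑ x ∈ B, ((up P {x}).card : ℝ)) * R ≤ B.card * P.card := by
    rw [Finset.sum_mul]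
    calc ∑ x ∈ B, ((up P {x}).card : ℝ) * R ≤ ∑ x ∈ B, (P.card : ℝ) := Finset.sum_le_sum h2
      _ = B.card * P.card := by rw [Finset.sum_const, nsmul_eq_mul]
  have h4 : (P.card : ℝ) ≤ ((P.filter fun i => Disjoint i B).card : ℝ) +
      ∑ x ∈ B, ((up P {x}).card : ℝ) := by exact_mod_cast h1
  nlinarith

theorem kernel (hCr : CrossStmt) {α : Type} [Fintype α] [DecidableEq α] (k : ℕ)
    (F : Finset (Finset α)) (A B : Finset α) (R ρ : ℝ) (hk : 1 ≤ k) (hρ : 0 < ρ)
    (hkρ : 1100 * (k : ℝ) ≤ ρ ^ 2) (hU : Unif k F) (hI : Efc.Inter F)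
    (hP : (up F A).Nonempty) (hsp : SprOver R (up F A) A)
    (hQ : (up (av F A) B).Nonempty) (hspB : SprOver ρ (up (av F A) B) B) :
    R - ρ < B.card := by
  by_contra hcon
  push Not at hcon
  have hR : ρ ≤ R := by
    have : (0 : ℝ) ≤ B.card := Nat.cast_nonneg _
    linarith
  have hR0 : 0 < R := lt_of_lt_of_le hρ hR
  have hBA : Disjoint B A := by
    obtain ⟨j, hj⟩ := hQ
    unfold up av at hj
    rw [Finset.mem_filter, Finset.mem_filter] at hj
    exact Finset.disjoint_of_subset_left hj.2 hj.1.2
  set P : Finset (Finset α) := up F A with hPdef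
  set P' : Finset (Finset α) := P.filter fun i => Disjoint i B with hP'
  have hm := meet P A B R hR0 hsp hBA
  have hPpos : (0 : ℝ) < P.card := by exact_mod_cast Finset.card_pos.2 hP
  have hP'le : (P.card : ℝ) * ρ ≤ R * P'.card := by
    refine le_trans ?_ hm
    exact mul_le_mul_of_nonneg_left (by linarith) hPpos.le
  have hP'pos : 0 < P'.card := by
    have h1 : 0 < R * (P'.card : ℝ) := lt_of_lt_of_le (mul_pos hPpos hρ) hP'le
    have h2 : (0 : ℝ) < P'.card := (mul_pos_iff_of_pos_left hR0).1 h1
    exact_mod_cast h2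
  have hkey := hCr α (Finset α) (Finset α) P' (fun i => i \ A) (up (av F A) B) (fun j => j \ B) ρ k
    hk hρ hkρ (Finset.card_pos.1 hP'pos) ?_ ?_ hQ ?_ ?_
  · obtain ⟨i, hi, j, hj, hd⟩ := hkey
    rw [hP', Finset.mem_filter, hPdef] at hi
    unfold up at hi hj
    unfold av at hj
    rw [Finset.mem_filter] at hi
    rw [Finset.mem_filter, Finset.mem_filter] at hj
    refine hI i hi.1.1 j hj.1.1 ?_
    rw [Finset.disjoint_left]
    intro x hx hx'
    refine Finset.disjoint_left.1 hd (Finset.mem_sdiff.2 ⟨hx, ?_⟩) (Finset.mem_sdiff.2 ⟨hx', ?_⟩)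
    · exact Finset.disjoint_left.1 hj.1.2 hx'
    · exact Finset.disjoint_left.1 hi.2 hx
  · intro T hT
    by_cases hTA : Disjoint T A
    · have h1 : (P'.filter fun i => T ⊆ i \ A).card ≤ (up P T).card := by
        refine Finset.card_le_card fun i hi => ?_
        rw [Finset.mem_filter, hP', Finset.mem_filter] at hi
        unfold up
        rw [Finset.mem_filter]
        exact ⟨hi.1.1, hi.2.trans Finset.sdiff_subset⟩
      have h2 := hsp T hTA
      have hc : 1 ≤ T.card := Finset.card_pos.2 hT
      have h3 : (ρ / R) ^ T.card ≤ ρ / R := by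
        have h0 : 0 ≤ ρ / R := by positivity
        have h1 : ρ / R ≤ 1 := (div_le_one hR0).2 hR
        calc (ρ / R) ^ T.card ≤ (ρ / R) ^ 1 := pow_le_pow_of_le_one h0 h1 hc
          _ = ρ / R := pow_one _
      calc ((P'.filter fun i => T ⊆ i \ A).card : ℝ) * ρ ^ T.card ≤
            ((up P T).card : ℝ) * ρ ^ T.card :=
            mul_le_mul_of_nonneg_right (by exact_mod_cast h1) (by positivity)
        _ = ((up P T).card : ℝ) * R ^ T.card * (ρ / R) ^ T.card := by
            rw [div_pow]
            field_simp
        _ ≤ (P.card : ℝ) * (ρ / R) ^ T.card := mul_le_mul_of_nonneg_right h2 (by positivity)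
        _ ≤ (P.card : ℝ) * (ρ / R) := mul_le_mul_of_nonneg_left h3 hPpos.le
        _ ≤ P'.card := by
            rw [← mul_div_assoc, div_le_iff₀ hR0]
            linarith
    · have h1 : (P'.filter fun i => T ⊆ i \ A) = ∅ := by
        rw [Finset.filter_eq_empty_iff]
        intro i _ h
        exact hTA (Finset.disjoint_of_subset_left h Finset.sdiff_disjoint)
      rw [h1, Finset.card_empty, Nat.cast_zero, zero_mul]
      exact Nat.cast_nonneg _
  · intro i hi
    rw [hP', Finset.mem_filter, hPdef] at hi
    unfold up at hi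
    rw [Finset.mem_filter] at hi
    exact (Finset.card_le_card Finset.sdiff_subset).trans (hU i hi.1.1).le
  · intro T hT
    by_cases hTB : Disjoint T B
    · refine le_trans ?_ (hspB T hTB)
      refine mul_le_mul_of_nonneg_right ?_ (by positivity)
      have h1 : ((up (av F A) B).filter fun i => T ⊆ i \ B).card ≤ (up (up (av F A) B) T).card := by
        refine Finset.card_le_card fun i hi => ?_
        rw [Finset.mem_filter] at hi
        rw [show up (up (av F A) B) T = (up (av F A) B).filter fun A => T ⊆ A from rfl,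
          Finset.mem_filter]
        exact ⟨hi.1, hi.2.trans Finset.sdiff_subset⟩
      exact_mod_cast h1
    · have h1 : ((up (av F A) B).filter fun i => T ⊆ i \ B) = ∅ := by
        rw [Finset.filter_eq_empty_iff]
        intro i _ h
        exact hTB (Finset.disjoint_of_subset_left h Finset.sdiff_disjoint)
      rw [h1, Finset.card_empty, Nat.cast_zero, zero_mul]
      exact Nat.cast_nonneg _
  · intro j hj
    unfold up av at hj
    rw [Finset.mem_filter, Finset.mem_filter] at hj
    exact (Finset.card_le_card Finset.sdiff_subset).trans (hU j hj.1.1).le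

end Pool.Agent.EfcE
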