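import Mathlib

/-!
# Many deleted vertices: numbers
-/

set_option autoImplicit false

namespace Pool.Agent.EfcE

theorem num (γ : ℝ) (h0 : 0 < γ) (h1 : γ < 1) : ∃ k₀ : ℕ, ∀ k : ℕ, k₀ ≤ k →
    1 ≤ k ∧ 0 < Real.log (Real.log k) ∧ 34 * √(k : ℝ) < k ∧
      (k : ℝ) * (1 + Real.log (Real.log k)) ≤
        (k * Real.exp (-(γ * Real.log (Real.log k))) - 34 * √(k : ℝ)) *
          Real.log (k / (34 * √(k : ℝ))) := by
  have hlit := (isLittleO_log_rpow_atTop (show 0 < 1 - γ by linarith)).bound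
    (show (0 : ℝ) < 1 / 16 by norm_num)
  obtain ⟨L₁, hL₁⟩ := Filter.eventually_atTop.1 hlit
  have htend : Filter.Tendsto (fun x : ℝ => x ^ (1 - γ)) Filter.atTop Filter.atTop :=
    tendsto_rpow_atTop (by linarith)
  obtain ⟨L₂, hL₂⟩ := Filter.eventually_atTop.1 (htend.eventually_ge_atTop 16)
  set L₀ : ℝ := max (max L₁ L₂) 600 with hL₀
  refine ⟨⌈Real.exp L₀⌉₊, fun k hk => ?_⟩
  have hkexp : Real.exp L₀ ≤ k := (Nat.le_ceil _).trans (by exact_mod_cast hk)
  have hkpos : (0 : ℝ) < k := lt_of_lt_of_le (Real.exp_pos _) hkexp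
  set L : ℝ := Real.log k with hL
  have hLL : L₀ ≤ L := (Real.le_log_iff_exp_le hkpos).2 hkexp
  have hL600 : 600 ≤ L := (le_max_right _ _).trans hLL
  have hL1' : L₁ ≤ L := ((le_max_left _ _).trans (le_max_left _ _)).trans hLL
  have hL2' : L₂ ≤ L := ((le_max_right _ _).trans (le_max_left _ _)).trans hLL
  have hLpos : 0 < L := by linarith
  have hkL : (k : ℝ) = Real.exp L := (Real.exp_log hkpos).symm
  set ℓ : ℝ := Real.log L with hℓ
  have hℓpos : 0 < ℓ := Real.log_pos (by linarith)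
  -- the square root
  have hs : √(k : ℝ) = Real.exp (L / 2) := by
    rw [hkL, show L = L / 2 + L / 2 by ring, Real.exp_add, Real.sqrt_mul_self (Real.exp_pos _).le]
    ring_nf
  have hkss : (k : ℝ) = Real.exp (L / 2) * Real.exp (L / 2) := by
    rw [← Real.exp_add, hkL]
    ring_nf
  have hexp : 68 * L ≤ Real.exp (L / 2) := by
    have h3 := Real.quadratic_le_exp_of_nonneg (show 0 ≤ L / 2 by linarith)
    nlinarith
  have hE1 : 0 < Real.exp (L / 2) := Real.exp_pos _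
  have h34 : 34 < Real.exp (L / 2) := by nlinarith
  -- powers of `L`
  have hLγ : Real.exp (-(γ * ℓ)) = L ^ (-γ) := by
    rw [Real.rpow_def_of_pos hLpos, ← hℓ]
    ring_nf
  have hLγ' : L ^ (-γ) * L = L ^ (1 - γ) := by
    rw [show 1 - γ = -γ + 1 by ring, Real.rpow_add hLpos, Real.rpow_one]
  have hbig : 68 * L ^ γ ≤ Real.exp (L / 2) := by
    refine le_trans ?_ hexp
    have : L ^ γ ≤ L ^ (1 : ℝ) := Real.rpow_le_rpow_of_exponent_le (by linarith) h1.le
    rw [Real.rpow_one] at this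
    linarith
  have hb1 := hL₁ L hL1'
  have hb2 := hL₂ L hL2'
  rw [Real.norm_of_nonneg hℓpos.le, Real.norm_of_nonneg (Real.rpow_nonneg hLpos.le _)] at hb1
  have hb3 : 8 * (1 + ℓ) ≤ L ^ (1 - γ) := by
    have : ℓ ≤ 1 / 16 * L ^ (1 - γ) := hb1
    linarith
  have hR : (k : ℝ) * L ^ (-γ) / 2 ≤ k * L ^ (-γ) - 34 * Real.exp (L / 2) := by
    have h3 : L ^ (-γ) * L ^ γ = 1 := by
      rw [← Real.rpow_add hLpos, neg_add_cancel, Real.rpow_zero]
    have h4 : 0 < L ^ (-γ) := Real.rpow_pos_of_pos hLpos _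
    have h5 : 68 ≤ Real.exp (L / 2) * L ^ (-γ) := by
      have h6 := mul_le_mul_of_nonneg_right hbig h4.le
      have h7 : 68 * L ^ γ * L ^ (-γ) = 68 * (L ^ (-γ) * L ^ γ) := by ring
      rw [h7, h3] at h6
      linarith
    rw [hkss]
    have h8 := mul_le_mul_of_nonneg_left h5 hE1.le
    nlinarith
  have hlog : L / 4 ≤ Real.log (k / (34 * Real.exp (L / 2))) := by
    have h3 : (k : ℝ) / (34 * Real.exp (L / 2)) = Real.exp (L / 2) / 34 := by
      rw [hkss]
      field_simp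
    rw [h3, Real.log_div hE1.ne' (by norm_num), Real.log_exp]
    have h4 : Real.log 34 ≤ 34 := by
      have := Real.log_le_sub_one_of_pos (show (0 : ℝ) < 34 by norm_num)
      linarith
    linarith
  refine ⟨?_, hℓpos, ?_, ?_⟩
  · have : (0 : ℝ) < k := hkpos
    exact_mod_cast this
  · rw [hs, hkss]
    exact mul_lt_mul_of_pos_right h34 hE1
  · rw [hs, hLγ]
    have h3 : (k : ℝ) * L ^ (-γ) / 2 * (L / 4) ≤
        (k * L ^ (-γ) - 34 * Real.exp (L / 2)) * Real.log (k / (34 * Real.exp (L / 2))) := by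
      refine mul_le_mul hR hlog (by linarith) ?_
      refine le_trans ?_ hR
      have : 0 < L ^ (-γ) := Real.rpow_pos_of_pos hLpos _
      positivity
    refine le_trans ?_ h3
    have h4 : (k : ℝ) * L ^ (-γ) / 2 * (L / 4) = k * (L ^ (1 - γ) / 8) := by
      rw [← hLγ']
      ring
    rw [h4]
    exact mul_le_mul_of_nonneg_left (by linarith) hkpos.le

end Pool.Agent.EfcE
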