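import Pool.Agent.Lib.MP_efc1da_coA.Mxa
import Pool.Agent.Lib.MP_efc1da_coE.Kc
import Pool.Agent.Lib.MP_efc1da_coE.Nm

/-!
# Many deleted vertices: one family
-/

set_option autoImplicit false

namespace Pool.Agent.EfcE

open Pool.Agent.Efc Pool.Agent.EfcA

theorem one (hCr : CrossStmt) (hEL : ELStmt) {α : Type} [Fintype α] [DecidableEq α] (k a : ℕ)
    (F : Finset (Finset α)) (β γ ℓ f : ℝ) (hk : 1 ≤ k) (hβ : 0 ≤ β) (hβγ : β ≤ γ) (hγ : 0 < γ)
    (hℓ : 0 < ℓ) (hak : a ≤ k) (hβ1 : β ≤ 1)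
    (ha : (k : ℝ) ≤ (γ - β) * a * ℓ) (hρk : 34 * √(k : ℝ) < k)
    (hnum : (k : ℝ) * (1 + ℓ) ≤ (k * Real.exp (-(γ * ℓ)) - 34 * √(k : ℝ)) *
      Real.log (k / (34 * √(k : ℝ)))) (hf : (k.factorial : ℝ) ≤ f) (hFf : (F.card : ℝ) ≤ f)
    (hU : Unif k F) (hI : Efc.Inter F) (hC : Cov k F) :
    ∃ B : Finset α, B.card ≤ a ∧
      ((F.filter fun A => Disjoint A B).card : ℝ) ≤ Real.exp (-(β * a * ℓ)) * f := by
  have hkpos : (0 : ℝ) < k := by exact_mod_cast hk
  have hf0 : 0 < f := lt_of_lt_of_le (by positivity) hf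
  have hmul : (0 : ℝ) ≤ β * a * ℓ := by positivity
  -- `k^k ≤ e^k k!`
  have hkk : (k : ℝ) ^ k ≤ Real.exp k * f := by
    have h1 := Real.pow_div_factorial_le_exp (k : ℝ) hkpos.le k
    have h2 : (0 : ℝ) < k.factorial := by positivity
    rw [div_le_iff₀ h2] at h1
    exact h1.trans (mul_le_mul_of_nonneg_left hf (Real.exp_pos _).le)
  -- degrees
  have hdeg : ∀ S : Finset α, (up F S).Nonempty → S.card ≤ k ∧
      ((up F S).card : ℝ) ≤ (k : ℝ) ^ (k - S.card) := by
    intro S ⟨A, hA⟩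
    unfold up at hA
    rw [Finset.mem_filter] at hA
    refine ⟨?_, ?_⟩
    · rw [← hU A hA.1]
      exact Finset.card_le_card hA.2
    · exact_mod_cast hEL α k F hU hI hC S
  by_cases hsmall : (F.card : ℝ) ≤ Real.exp (-(β * a * ℓ)) * f
  · refine ⟨∅, by simp, le_trans ?_ hsmall⟩
    exact_mod_cast Finset.card_le_card (Finset.filter_subset _ _)
  push Not at hsmall
  have hFne : F.Nonempty := by
    rw [Finset.nonempty_iff_ne_empty]
    rintro rfl
    rw [Finset.card_empty, Nat.cast_zero] at hsmall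
    have : 0 < Real.exp (-(β * a * ℓ)) * f := by positivity
    linarith
  set R : ℝ := k * Real.exp (-(γ * ℓ)) with hR
  have hR0 : 0 < R := by positivity
  obtain ⟨A, hA1, hA2, hA3⟩ := stmtMxa α R F hR0 hFne
  obtain ⟨hAk, hAdeg⟩ := hdeg A hA1
  have hAcard : A.card ≤ a := by
    have h1 : (F.card : ℝ) ≤ (k : ℝ) ^ k * Real.exp (-(γ * ℓ * A.card)) := by
      calc (F.card : ℝ) ≤ R ^ A.card * (up F A).card := hA2
        _ ≤ R ^ A.card * (k : ℝ) ^ (k - A.card) := mul_le_mul_of_nonneg_left hAdeg (by positivity)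
        _ = (k : ℝ) ^ k * Real.exp (-(γ * ℓ * A.card)) := by
            rw [hR, mul_pow, ← Real.exp_nat_mul, mul_right_comm, ← pow_add,
              Nat.add_sub_cancel' hAk]
            ring_nf
    have h2 : Real.exp (-(β * a * ℓ)) * f < Real.exp k * f * Real.exp (-(γ * ℓ * A.card)) :=
      lt_of_lt_of_le (lt_of_lt_of_le hsmall h1)
        (mul_le_mul_of_nonneg_right hkk (Real.exp_pos _).le)
    have h3 : Real.exp (-(β * a * ℓ)) < Real.exp (k - γ * ℓ * A.card) := by
      rw [sub_eq_add_neg, Real.exp_add]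
      refine lt_of_mul_lt_mul_right (a := f) ?_ hf0.le
      calc Real.exp (-(β * a * ℓ)) * f < Real.exp k * f * Real.exp (-(γ * ℓ * A.card)) := h2
        _ = Real.exp k * Real.exp (-(γ * ℓ * A.card)) * f := by ring
    have h4 := Real.exp_lt_exp.1 h3
    have h5 : γ * ℓ * A.card < γ * ℓ * a := by nlinarith
    have h6 : (A.card : ℝ) < a := lt_of_mul_lt_mul_left h5 (by positivity)
    have h7 : A.card < a := by exact_mod_cast h6
    exact h7.le
  refine ⟨A, hAcard, ?_⟩
  change ((av F A).card : ℝ) ≤ _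
  rcases (av F A).eq_empty_or_nonempty with h0 | h0
  · rw [h0, Finset.card_empty, Nat.cast_zero]
    positivity
  set ρ : ℝ := 34 * √(k : ℝ) with hρ
  have hρ0 : 0 < ρ := by positivity
  obtain ⟨B, hB1, hB2, hB3⟩ := stmtMxa α ρ (av F A) hρ0 h0
  have hBF : (up (av F A) B).card ≤ (up F B).card := by
    refine Finset.card_le_card fun i hi => ?_
    unfold up av at hi
    unfold up
    rw [Finset.mem_filter, Finset.mem_filter] at hi
    rw [Finset.mem_filter]
    exact ⟨hi.1.1, hi.2⟩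
  have hBne : (up F B).Nonempty :=
    Finset.card_pos.1 (lt_of_lt_of_le (Finset.card_pos.2 hB1) hBF)
  obtain ⟨hBk, hBdeg⟩ := hdeg B hBne
  have hkρ : 1100 * (k : ℝ) ≤ ρ ^ 2 := by
    rw [hρ, mul_pow, Real.sq_sqrt hkpos.le]
    linarith
  have hker := kernel hCr k F A B R ρ hk hρ0 hkρ hU hI hA1 hA3 hB1 hB3
  set lg : ℝ := Real.log (k / ρ) with hlg
  have hlgpos : 0 < lg := Real.log_pos (by rw [one_lt_div hρ0]; exact hρk)
  have hρe : ρ = k * Real.exp (-lg) := by
    rw [hlg, Real.exp_neg, Real.exp_log (by positivity)]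
    field_simp
  have h1 : ((av F A).card : ℝ) ≤ (k : ℝ) ^ k * Real.exp (-(lg * B.card)) := by
    calc ((av F A).card : ℝ) ≤ ρ ^ B.card * (up (av F A) B).card := hB2
      _ ≤ ρ ^ B.card * (k : ℝ) ^ (k - B.card) := by
          refine mul_le_mul_of_nonneg_left (le_trans ?_ hBdeg) (by positivity)
          exact_mod_cast hBF
      _ = (k : ℝ) ^ k * Real.exp (-(lg * B.card)) := by
          rw [hρe, mul_pow, ← Real.exp_nat_mul, mul_right_comm, ← pow_add,
            Nat.add_sub_cancel' hBk]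
          ring_nf
  refine h1.trans ?_
  have h2 : -(lg * B.card) ≤ -(k * (1 + ℓ)) := by
    have h3 : (R - ρ) * lg ≤ B.card * lg := mul_le_mul_of_nonneg_right hker.le hlgpos.le
    nlinarith
  calc (k : ℝ) ^ k * Real.exp (-(lg * B.card)) ≤
        (Real.exp k * f) * Real.exp (-(k * (1 + ℓ))) :=
        mul_le_mul hkk (Real.exp_le_exp.2 h2) (Real.exp_pos _).le (by positivity)
    _ = Real.exp (-(k * ℓ)) * f := by
        have : Real.exp k * Real.exp (-(k * (1 + ℓ))) = Real.exp (-(k * ℓ)) := by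
          rw [← Real.exp_add]
          ring_nf
        rw [← this]
        ring
    _ ≤ Real.exp (-(β * a * ℓ)) * f := by
        refine mul_le_mul_of_nonneg_right (Real.exp_le_exp.2 ?_) hf0.le
        have h3 : (a : ℝ) ≤ k := by exact_mod_cast hak
        have h4 : β * a ≤ k := by
          calc β * a ≤ 1 * a := mul_le_mul_of_nonneg_right hβ1 (Nat.cast_nonneg _)
            _ ≤ k := by rw [one_mul]; exact h3
        nlinarith

end Pool.Agent.EfcE
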